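import Pool.Agent.Y645.UP.Stm
import Pool.Agent.Y291.UM.Star

/-!
# Job UP-STAR: the rank of a generic point of a family of atypical points
-/

set_option autoImplicit false

namespace Pool.Agent.Y484.UP

open MvPolynomial Module Pool.Agent.Y645.UL Pool.Agent.Y645.UM Pool.Agent.Y645.UP

section lin

variable {E I₁ I₂ : Type} [Field E]

/-- the differentials of the equations as a linear map -/
def gL (y : (I₁ ⊕ I₂) × Fin 3 → E) :
    ((I₁ ⊕ I₂) × Fin 3 → E) →ₗ[E] (I₁ ⊕ I₂ → E) where
  toFun η := gForm y η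
  map_add' v w := by
    funext s
    rcases s with i | i
    · simp only [gForm, Sum.elim_inl, Pi.add_apply]
      ring
    · simp only [gForm, Sum.elim_inr, Pi.add_apply]
      ring
  map_smul' c v := by
    funext s
    rcases s with i | i
    · simp only [gForm, Sum.elim_inl, Pi.smul_apply, smul_eq_mul, RingHom.id_apply]
      ring
    · simp only [gForm, Sum.elim_inr, Pi.smul_apply, smul_eq_mul, RingHom.id_apply]
      ring

theorem gL_apply (y η : (I₁ ⊕ I₂) × Fin 3 → E) : gL y η = gForm y η := rfl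

variable {k : Type} [Field k]

/-- the polynomials -/
noncomputable def Px (nn : (I₁ ⊕ I₂) × Fin 3 → MvPolynomial ((I₁ ⊕ I₂) × Fin 3) k) :
    I₁ ⊕ I₂ → MvPolynomial ((I₁ ⊕ I₂) × Fin 3) k :=
  Sum.elim (fun i => nn (Sum.inl i, 0) + nn (Sum.inl i, 1) - nn (Sum.inl i, 2))
    (fun i => X (Sum.inr i, 1) * nn (Sum.inr i, 0) + X (Sum.inr i, 0) * nn (Sum.inr i, 1) -
      nn (Sum.inr i, 2))

theorem aeval_Px [Algebra k E] (x : (I₁ ⊕ I₂) × Fin 3 → E)
    (nn : (I₁ ⊕ I₂) × Fin 3 → MvPolynomial ((I₁ ⊕ I₂) × Fin 3) k) (s : I₁ ⊕ I₂) :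
    aeval x (Px nn s) = gForm x (fun m => aeval x (nn m)) s := by
  rcases s with i | i
  · simp only [Px, gForm, Sum.elim_inl, map_add, map_sub]
  · simp only [Px, gForm, Sum.elim_inr, map_add, map_sub, map_mul, aeval_X]

end lin

/-- The transcendence degree is at most the dimension of a space of possible differentials. -/
theorem td_le_finrank' {k F N : Type} [Field k] [Field F] [Algebra k F] [CharZero k] [Fintype N]
    (a : N → F) (S : Submodule F (N → F))
    (hS : ∀ δ : Derivation k F F, (fun n => δ (a n)) ∈ S) : td k a ≤ finrank F S := by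
  classical
  obtain ⟨B, hB, hind, -⟩ := exists_basis (k := k) a
  choose δ hδ using fun b : B => exists_der_ind (fun b' : B => a b') hind
    (fun b' => if b' = b then 1 else 0)
  let v : B → S := fun b => ⟨fun n => δ b (a n), hS (δ b)⟩
  have hv : LinearIndependent F v := by
    rw [Fintype.linearIndependent_iff]
    intro g hg b
    have h1 := congrArg (fun s : S => (s : N → F) b) hg
    simp only [Submodule.coe_sum, Finset.sum_apply, Submodule.coe_smul, Pi.smul_apply,
      smul_eq_mul, Submodule.coe_zero, Pi.zero_apply] at h1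
    rw [Finset.sum_eq_single b] at h1
    · have h2 : (v b : N → F) b = 1 := by
        change δ b (a b) = _
        rw [hδ b b, if_pos rfl]
      rw [h2, mul_one] at h1
      exact h1
    · intro b' _ hb'
      have h2 : (v b' : N → F) b = 0 := by
        change δ b' (a b) = _
        rw [hδ b' b, if_neg (Ne.symm hb')]
      rw [h2, mul_zero]
    · intro h; exact absurd (Finset.mem_univ b) h
  have h4 := hv.fintype_card_le_finrank
  rw [Fintype.card_coe, hB] at h4
  exact h4

theorem t_STARp (hTY : Pool.Agent.Y645.UM.S_TYDIM) (hCL : Pool.Agent.Y645.UM.S_CLSPC)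
    (hLY : Pool.Agent.Y645.UM.S_LIFTY) : Pool.Agent.Y645.UP.S_STARp := by
  classical
  intro k L F I₁ I₂ _ _ _ _ _ _ _ _ _ D hD y a hOn hs hcl hind
  have hcla : Clean D a := hCL k L F _ D a y hs hcl
  -- the generators
  let σ : Type := {nn : (I₁ ⊕ I₂) × Fin 3 → MvPolynomial ((I₁ ⊕ I₂) × Fin 3) k //
    (fun i => aeval a (nn i)) ∈ TY D a}
  obtain ⟨f, hf⟩ := Pool.Agent.Y291.UM.exists_det_ne (L := L) (σ := σ)
    (fun s i => gForm y (fun m => aeval y (s.1 m)) i) (by
      intro c hc
      refine hind c fun η hη => ?_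
      let A : ((I₁ ⊕ I₂) × Fin 3 → L) →ₗ[L] L :=
        { toFun := fun η => ∑ s, c s * gL y η s
          map_add' := by
            intro v w
            simp only [map_add, Pi.add_apply, mul_add, Finset.sum_add_distrib]
          map_smul' := by
            intro t v
            simp only [map_smul, Pi.smul_apply, smul_eq_mul, RingHom.id_apply, Finset.mul_sum]
            refine Finset.sum_congr rfl fun i _ => ?_
            ring }
      have h1 := hLY k L F _ D hD a y hs hcl hη
      have h2 : Submodule.span L {v | ∃ nn : (I₁ ⊕ I₂) × Fin 3 →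
          MvPolynomial ((I₁ ⊕ I₂) × Fin 3) k, v = (fun i => aeval y (nn i)) ∧
          (fun i => aeval a (nn i)) ∈ TY D a} ≤ LinearMap.ker A := by
        rw [Submodule.span_le]
        rintro v ⟨nn, rfl, hnn⟩
        exact hc ⟨nn, hnn⟩
      exact h2 h1)
  let Dm : Matrix (I₁ ⊕ I₂) (I₁ ⊕ I₂) (MvPolynomial ((I₁ ⊕ I₂) × Fin 3) k) :=
    Matrix.of fun i q => Px (f q).1 i
  have hDm : ∀ (E : Type) [Field E] [Algebra k E] (x : (I₁ ⊕ I₂) × Fin 3 → E),
      aeval x Dm.det = (Matrix.of fun i q => gForm x (fun m => aeval x ((f q).1 m)) i :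
        Matrix (I₁ ⊕ I₂) (I₁ ⊕ I₂) E).det := by
    intro E _ _ x
    rw [AlgHom.map_det]
    congr 1
    ext i q
    simp only [Dm, AlgHom.mapMatrix_apply, Matrix.map_apply, Matrix.of_apply, aeval_Px]
  have hDa : aeval a Dm.det ≠ 0 := by
    intro h0
    have h1 := hs _ h0
    rw [hDm L y] at h1
    exact hf h1
  rw [hDm F a] at hDa
  -- the linear map
  let e : TY D a →ₗ[F] (I₁ ⊕ I₂ → F) := gL a ∘ₗ (TY D a).subtype
  have hsurj : Function.Surjective e := by
    intro t
    set M : Matrix (I₁ ⊕ I₂) (I₁ ⊕ I₂) F :=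
      Matrix.of fun i q => gForm a (fun m => aeval a ((f q).1 m)) i with hM
    have hu : IsUnit M.det := isUnit_iff_ne_zero.2 hDa
    let c : I₁ ⊕ I₂ → F := M⁻¹.mulVec t
    let g : (I₁ ⊕ I₂) → TY D a := fun q => ⟨fun m => aeval a ((f q).1 m), (f q).2⟩
    refine ⟨∑ q, c q • g q, ?_⟩
    rw [map_sum]
    have h1 : M.mulVec c = t := by
      simp only [c, Matrix.mulVec_mulVec, Matrix.mul_nonsing_inv M hu, Matrix.one_mulVec]
    rw [← h1]
    ext i
    rw [Finset.sum_apply, Matrix.mulVec, dotProduct]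
    refine Finset.sum_congr rfl fun q _ => ?_
    rw [map_smul, Pi.smul_apply, smul_eq_mul, mul_comm]
    rfl
  -- dimensions
  let S : Submodule F ((I₁ ⊕ I₂) × Fin 3 → F) := (LinearMap.ker e).map (TY D a).subtype
  have hS : finrank F S ≤ finrank F (LinearMap.ker e) := Submodule.finrank_map_le _ _
  have hrn := LinearMap.finrank_range_add_finrank_ker e
  rw [LinearMap.range_eq_top.2 hsurj, finrank_top, Module.finrank_pi, Fintype.card_sum,
    hTY k F _ D hD a hcla] at hrn
  have h3 : td k a ≤ finrank F S := by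
    refine td_le_finrank' a S fun δ => ?_
    refine ⟨⟨fun j => δ (a j), ?_⟩, ?_, rfl⟩
    · intro i j hij _ δ'
      exact Pool.Agent.Y291.UM.der_comm δ δ' ((hD.1 F).2.2.2.1 _ _ hij)
    · change gForm a (fun j => δ (a j)) = 0
      funext x
      rcases x with i | i
      · simp only [gForm, Sum.elim_inl, Pi.zero_apply]
        rw [← hOn.1 i, map_add, sub_self]
      · simp only [gForm, Sum.elim_inr, Pi.zero_apply]
        rw [← hOn.2 i, Derivation.leibniz, smul_eq_mul, smul_eq_mul]
        ring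
  omega

end Pool.Agent.Y484.UP
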